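import Mathlib
import Pool.Agent.H57.GarnerDefs
import Pool.Agent.H57.Garner

namespace Pool.Agent.Results.MP_e99302_nt.LongRuns

open Pool.Agent.H57.Garner

theorem result : ∀ L : ℕ, 1 ≤ L → ∃ n : ℕ, 1 ≤ n ∧ ∃ h : ℕ, ∀ j : ℕ, j < L → HasHeight (n + j) h :=
  fun L _ => long_runs L

end Pool.Agent.Results.MP_e99302_nt.LongRuns
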